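import Pool.Agent.Helper21.MT9.Stmts
import Pool.Agent.Helper85.HD.FIX

/-!
# T9, module TSC: tensors killed by the infinitesimal isometries are fixed by the identity component
of the group of similitudes
-/

set_option autoImplicit false
set_option maxHeartbeats 800000

open NumberField MU MT HD

namespace MT

/-- isometries of determinant one of a symmetric form -/
theorem tsc_iso {n a : ℕ} (ψ : Matrix (Fin n) (Fin n) ℚ) (t : Tensor n a a ℚ) (hψ : ψ.det ≠ 0)
    (hs : ψ.transpose = ψ)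
    (hk : ∀ A : Matrix (Fin n) (Fin n) ℚ, A.transpose * ψ + ψ * A = 0 → Kill A t)
    (K : Type) [Field K] [CharZero K] (x : Matrix (Fin n) (Fin n) K)
    (hx : x.transpose * bas K ψ * x = bas K ψ) (hx1 : x.det = 1) : FxC (t.base K) x := by
  have hdet := bas_det K ψ hψ
  have h' : (bas K ψ).transpose = bas K ψ := by
    ext i j
    have h1 := congrFun (congrFun hs i) j
    rw [Matrix.transpose_apply] at h1
    rw [Matrix.transpose_apply]
    simp only [bas, Matrix.map_apply]
    rw [h1]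
  have h2 := st_ISM K n (bas K ψ) {y | FxC (t.base K) (y : Matrix (Fin n) (Fin n) K)} hdet
    (Or.inr h') (fun y hy z hz => fx_mul hy hz)
    (fun y hy hy1 => fx_cay ψ t hψ (Or.inr hs) hk K _ hy hy1)
    (Matrix.GeneralLinearGroup.mkOfDetNeZero x (by rw [hx1]; exact one_ne_zero)) hx hx1
  exact h2

/-- the case of even `w` and even `n` -/
theorem tsc_even {n a : ℕ} (ψ : Matrix (Fin n) (Fin n) ℚ) (t : Tensor n a a ℚ) (hn : 1 ≤ n)
    (hn2 : Even n) (hψ : ψ.det ≠ 0) (hs : ψ.transpose = ψ)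
    (hk : ∀ A : Matrix (Fin n) (Fin n) ℚ, A.transpose * ψ + ψ * A = 0 → Kill A t)
    (K : Type) [Field K] [CharZero K] (g : Matrix.GeneralLinearGroup (Fin n) K) (c : K)
    (hc : (g : Matrix (Fin n) (Fin n) K).transpose * bas K ψ * (g : Matrix (Fin n) (Fin n) K) =
      c • bas K ψ)
    (hd1 : (g : Matrix (Fin n) (Fin n) K).det = c ^ (n / 2)) :
    act g (t.base K) = t.base K := by
  apply fx_fix
  have hgd : ((g : Matrix (Fin n) (Fin n) K)).det ≠ 0 := by
    have := (Matrix.isUnit_iff_isUnit_det _).mp (Units.isUnit g)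
    exact this.ne_zero
  obtain ⟨k, hk2⟩ := hn2
  have hk2' : n / 2 = k := by omega
  have hc0 : c ≠ 0 := by
    rintro rfl
    rw [hd1, hk2', zero_pow (by omega)] at hgd
    exact hgd rfl
  let L := AlgebraicClosure K
  have : CharZero L := charZero_of_injective_algebraMap (algebraMap K L).injective
  obtain ⟨d, hd⟩ := IsAlgClosed.exists_pow_nat_eq (algebraMap K L c) (n := 2) (by norm_num)
  have hd0 : d ≠ 0 := by
    rintro rfl
    rw [zero_pow two_ne_zero] at hd
    exact hc0 ((map_eq_zero (algebraMap K L)).mp hd.symm)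
  set φ := algebraMap K L with hφ
  set gL : Matrix (Fin n) (Fin n) L := (g : Matrix (Fin n) (Fin n) K).map φ with hgL
  have h1 : gL.transpose * bas L ψ * gL = (d ^ 2) • bas L ψ := by
    have h2 := congrArg (fun m : Matrix (Fin n) (Fin n) K => m.map φ) hc
    simp only [Matrix.map_mul] at h2
    rw [bas_map, Matrix.transpose_map, ← hgL] at h2
    rw [h2, hd, ← bas_map φ ψ]
    ext i j
    simp
  have hdetL : gL.det = d ^ n := by
    have h2 : gL.det = φ ((g : Matrix (Fin n) (Fin n) K)).det := by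
      rw [hgL]
      exact (RingHom.map_det φ _).symm
    rw [h2, hd1, map_pow, ← hd, hk2', ← pow_mul]
    congr 1
    omega
  have h3 : FxC (t.base L) (d⁻¹ • gL) := by
    refine tsc_iso ψ t hψ hs hk L _ ?_ ?_
    · rw [Matrix.transpose_smul, Matrix.smul_mul, Matrix.smul_mul, Matrix.mul_smul, h1, smul_smul,
        smul_smul]
      have : d⁻¹ * d⁻¹ * d ^ 2 = 1 := by
        rw [pow_two, mul_assoc, ← mul_assoc d⁻¹ d d, inv_mul_cancel₀ hd0, one_mul,
          inv_mul_cancel₀ hd0]
      rw [this, one_smul]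
    · rw [Matrix.det_smul, Fintype.card_fin, hdetL, ← mul_pow, inv_mul_cancel₀ hd0, one_pow]
  have h4 : FxC (t.base L) gL := by
    have h5 : gL = d • (d⁻¹ • gL) := by
      rw [smul_smul, mul_inv_cancel₀ hd0, one_smul]
    unfold FxC at h3 ⊢
    rw [h5, fx_tpf_smul, Matrix.smul_mul, Matrix.mul_smul, h3]
  have hbase : fxm (t.base L) = (fxm (t.base K)).map φ := by
    ext i j
    simp [fxm, Tensor.base]
  unfold FxC at h4 ⊢
  rw [hbase, hgL, ← fx_tpf_map φ (fun _ : Fin a => (g : Matrix (Fin n) (Fin n) K)),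
    ← Matrix.map_mul, ← Matrix.map_mul] at h4
  ext i j
  have h6 := congrFun (congrFun h4 i) j
  rw [Matrix.map_apply, Matrix.map_apply] at h6
  exact φ.injective h6

/-- TSC -/
theorem st_TSC : ST_TSC := by
  intro n p w ψ t hn hψ hs hk K _ _ g hg
  obtain ⟨c, hc, hd⟩ := hg
  rcases Nat.even_or_odd w with hw | hw
  · rw [hw.neg_one_pow, one_smul] at hs
    rcases Nat.even_or_odd n with hn2 | hn2
    · exact tsc_even ψ t hn hn2 hψ hs hk K g c hc (hd hw hn2)
    · exact st_FIX n p ψ t hψ (Or.inr ⟨hs, hn2⟩) hk K g ⟨c, hc⟩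
  · rw [hw.neg_one_pow, neg_one_smul] at hs
    exact st_FIX n p ψ t hψ (Or.inl hs) hk K g ⟨c, hc⟩

end MT
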